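import Mathlib

/-!
# Kotzig's triangle criterion for fixed points of antimorphisms fails

`G9` is a regular self-complementary graph on `9 = 4 * 2 + 1` vertices, every vertex of which lies
in exactly `2 = 2 * (2 - 1)` triangles, but only one vertex of which (the vertex `8`) is fixed by an
isomorphism-permutation.
-/

namespace Pool.Agent.Results.MP_b6be33_co.KotzigTriangles

/-- `P` is an isomorphism-permutation of `G`: an isomorphism from `G` onto its complement. -/
def IsAnti {V : Type} (G : SimpleGraph V) (P : Equiv.Perm V) : Prop :=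
  ∀ u v : V, u ≠ v → (G.Adj u v ↔ ¬ G.Adj (P u) (P v))

/-- The set `F(G)` of vertices fixed by at least one isomorphism-permutation. -/
def F {V : Type} (G : SimpleGraph V) : Set V := {v | ∃ P : Equiv.Perm V, IsAnti G P ∧ P v = v}

/-- The number of triangles of `G` that contain the vertex `v`. -/
noncomputable def triangles {V : Type} (G : SimpleGraph V) (v : V) : ℕ :=
  Set.ncard {s : Finset V | G.IsNClique 3 s ∧ v ∈ s}

/-- Rows of the adjacency matrix of the counterexample, as bit masks. -/
def row : Fin 9 → ℕ := ![54, 401, 201, 356, 99, 281, 156, 326, 170]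

/-- The adjacency relation of the counterexample. -/
def adj (u v : Fin 9) : Bool := (row u).testBit v

/-- The counterexample. -/
def G9 : SimpleGraph (Fin 9) where
  Adj u v := adj u v = true
  symm := ⟨by decide⟩
  loopless := ⟨by decide⟩

instance : DecidableRel G9.Adj := fun u v => inferInstanceAs (Decidable (adj u v = true))

lemma regular9 (v : Fin 9) : (G9.neighborSet v).ncard = 4 := by
  have h : G9.neighborSet v = ((Finset.univ.filter fun w => adj v w = true : Finset (Fin 9)) :
      Set (Fin 9)) := by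
    ext w
    simp [G9]
  rw [h, Set.ncard_coe_finset]
  clear h
  revert v
  decide

lemma triangles9 (v : Fin 9) : triangles G9 v = 2 := by
  have h : {s : Finset (Fin 9) | G9.IsNClique 3 s ∧ v ∈ s}
      = (((G9.cliqueFinset 3).filter fun s => v ∈ s : Finset (Finset (Fin 9))) :
        Set (Finset (Fin 9))) := by
    ext s
    simp [SimpleGraph.mem_cliqueFinset_iff]
  rw [triangles, h, Set.ncard_coe_finset]
  clear h
  revert v
  decide +kernel

/-- The permutation `(0 1 2 3)(4 5 6 7)(8)`. -/
def P9 : Equiv.Perm (Fin 9) where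
  toFun := ![1, 2, 3, 0, 5, 6, 7, 4, 8]
  invFun := ![3, 0, 1, 2, 7, 4, 5, 6, 8]
  left_inv := by decide
  right_inv := by decide

lemma anti9 : IsAnti G9 P9 := by
  have h : ∀ u v : Fin 9, u ≠ v → (adj u v = true ↔ ¬ adj (P9 u) (P9 v) = true) := by decide
  exact h

/-- `x` is a centre of a path on three vertices in the neighbourhood of `v`, or such a centre in
the complement and the non-neighbourhood: `b` selects which. -/
def cherry (b : Bool) (v x y z : Fin 9) : Prop :=
  x ≠ v ∧ y ≠ v ∧ z ≠ v ∧ x ≠ y ∧ x ≠ z ∧ y ≠ z ∧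
    adj v x = b ∧ adj v y = b ∧ adj v z = b ∧ adj x y = b ∧ adj x z = b

instance (b : Bool) (v x y z : Fin 9) : Decidable (cherry b v x y z) := by
  unfold cherry
  infer_instance

lemma cherry_dichotomy : ∀ v : Fin 9, v ≠ 8 →
    ((∃ x y z, cherry true v x y z) ∧ ∀ x y z, ¬ cherry false v x y z) ∨
    ((∃ x y z, cherry false v x y z) ∧ ∀ x y z, ¬ cherry true v x y z) := by
  decide +kernel

lemma cherry_map {P : Equiv.Perm (Fin 9)} (hP : IsAnti G9 P) {v : Fin 9} (hv : P v = v)
    {b : Bool} {x y z : Fin 9} (h : cherry b v x y z) : cherry (!b) v (P x) (P y) (P z) := by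
  have key : ∀ p q : Fin 9, p ≠ q → adj p q = b → adj (P p) (P q) = !b := by
    intro p q hpq hb
    have := hP p q hpq
    change (adj p q = true ↔ ¬ adj (P p) (P q) = true) at this
    cases b <;> cases h1 : adj (P p) (P q) <;> simp_all
  obtain ⟨h1, h2, h3, h4, h5, h6, h7, h8, h9, h10, h11⟩ := h
  have ne : ∀ p, p ≠ v → P p ≠ v := fun p hp h => hp (P.injective (h.trans hv.symm))
  refine ⟨ne _ h1, ne _ h2, ne _ h3, P.injective.ne h4, P.injective.ne h5, P.injective.ne h6,
    ?_, ?_, ?_, key _ _ h4 h10, key _ _ h5 h11⟩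
  · have := key _ _ h1.symm h7
    rwa [hv] at this
  · have := key _ _ h2.symm h8
    rwa [hv] at this
  · have := key _ _ h3.symm h9
    rwa [hv] at this

lemma F9 : F G9 = {8} := by
  ext v
  constructor
  · rintro ⟨P, hP, hv⟩
    by_contra hne
    rcases cherry_dichotomy v hne with ⟨⟨x, y, z, h⟩, h'⟩ | ⟨⟨x, y, z, h⟩, h'⟩
    · exact h' _ _ _ (cherry_map hP hv h)
    · exact h' _ _ _ (cherry_map hP hv h)
  · rintro rfl
    exact ⟨P9, anti9, by decide⟩

/-- There is a regular self-complementary graph on `4 * 2 + 1` vertices such that every vertex lies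
in exactly `2 * (2 - 1)` triangles, and yet only one vertex is fixed by an
isomorphism-permutation. -/
theorem result : ∃ G : SimpleGraph (Fin (4 * 2 + 1)),
    (∀ v, (G.neighborSet v).ncard = 2 * 2) ∧ (∃ P : Equiv.Perm _, IsAnti G P) ∧
      (∀ v, triangles G v = 2 * (2 - 1)) ∧ ∃ w, F G = {w} :=
  ⟨G9, regular9, ⟨P9, anti9⟩, triangles9, 8, F9⟩

end Pool.Agent.Results.MP_b6be33_co.KotzigTriangles
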